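import Mathlib
import Pool.Agent.H523R3.TransMain

/-!
# Simplicial 3-polytopes with transversal ratio tending to one half

Nested octahedra with one stacked vertex, realised through three height functions.
-/

set_option autoImplicit false

namespace Pool.Agent.X156.TV

open Pool.Agent.H523R3.Trans Pool.Agent.H523R3.Frames

/-- The height number `k` of the vertex of type `t` in level `p`. -/
def g (J : ℕ) : Fin 3 → ℕ → ℕ → ℤ
  | 0, p, 0 => 3 * (p : ℤ)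
  | 0, p, 1 => 8 * (J : ℤ) - p
  | 0, p, 2 => 3 * (p : ℤ) + 1
  | 0, p, _ => 3 * (p : ℤ) + 2
  | 1, p, 0 => 2 * (p : ℤ) + 1
  | 1, p, 1 => 2 * (p : ℤ)
  | 1, p, 2 => 8 * (J : ℤ) - 2 * p
  | 1, p, _ => 8 * (J : ℤ) - 2 * p - 1
  | 2, p, 0 => 8 * (J : ℤ) - p
  | 2, p, 1 => 3 * (p : ℤ) + 1
  | 2, p, 2 => 3 * (p : ℤ)
  | 2, p, _ => 3 * (p : ℤ) + 2

/-- The height functions on the `4 * J` vertices. -/
def ht (J : ℕ) (k : Fin 3) (v : Fin (4 * J)) : ℤ := g J k ((v : ℕ) / 4) ((v : ℕ) % 4)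

lemma g_anti {J p q s t : ℕ} (hp : p < J) (hq : q < J) (hs : s < 4) (ht : t < 4)
    (hne : ¬ (p = q ∧ s = t)) : ∃ k, g J k p s < g J k q t := by
  by_contra hcon
  push Not at hcon
  have h0 := hcon 0
  have h1 := hcon 1
  have h2 := hcon 2
  clear hcon
  interval_cases s <;> interval_cases t <;> simp only [g] at h0 h1 h2 <;> omega

lemma ht_anti (J : ℕ) (i j : Fin (4 * J)) (hij : i ≠ j) : ∃ k, ht J k i < ht J k j := by
  have hi := i.2
  have hj := j.2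
  have hne : (i : ℕ) ≠ j := fun h => hij (Fin.ext h)
  exact g_anti (by omega) (by omega) (Nat.mod_lt _ (by norm_num)) (Nat.mod_lt _ (by norm_num))
    (by omega)

/-- The combinatorial condition of a frame in terms of levels and types. -/
def Fr (J : ℕ) (x y z : ℕ × ℕ) : Prop :=
  (g J 0 y.1 y.2 < g J 0 x.1 x.2 ∧ g J 0 z.1 z.2 < g J 0 x.1 x.2) ∧
  (g J 1 x.1 x.2 < g J 1 y.1 y.2 ∧ g J 1 z.1 z.2 < g J 1 y.1 y.2) ∧
  (g J 2 x.1 x.2 < g J 2 z.1 z.2 ∧ g J 2 y.1 y.2 < g J 2 z.1 z.2) ∧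
  ∀ q s : ℕ, q < J → s < 4 → (q, s) ≠ x → (q, s) ≠ y → (q, s) ≠ z →
    g J 0 x.1 x.2 < g J 0 q s ∨ g J 1 y.1 y.2 < g J 1 q s ∨ g J 2 z.1 z.2 < g J 2 q s

lemma frames {J j : ℕ} (hj : j + 1 < J) :
    Fr J (j, 1) (j, 3) (j + 1, 2) ∧ Fr J (j + 1, 0) (j, 3) (j, 0) ∧
    Fr J (j, 1) (j + 1, 1) (j, 0) ∧ Fr J (j, 1) (j + 1, 2) (j + 1, 1) ∧
    Fr J (j + 1, 2) (j, 3) (j + 1, 0) ∧ Fr J (j + 1, 1) (j + 1, 0) (j, 0) ∧
    Fr J (j + 1, 3) (j + 1, 2) (j + 1, 0) ∧ Fr J (j + 1, 1) (j + 1, 2) (j + 1, 3) := by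
  refine ⟨?_, ?_, ?_, ?_, ?_, ?_, ?_, ?_⟩ <;>
  · refine ⟨⟨?_, ?_⟩, ⟨?_, ?_⟩, ⟨?_, ?_⟩, ?_⟩
    · simp only [g]; push_cast; omega
    · simp only [g]; push_cast; omega
    · simp only [g]; push_cast; omega
    · simp only [g]; push_cast; omega
    · simp only [g]; push_cast; omega
    · simp only [g]; push_cast; omega
    · intro q s hq hs h1 h2 h3
      simp only [ne_eq, Prod.mk.injEq] at h1 h2 h3
      interval_cases s <;> simp only [g] <;> push_cast <;> omega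

/-- A transversal of the boundary complex meets every frame. -/
lemma hit {J : ℕ} {s : ℝ} (hs : 0 < s)
    (hF : ∀ (k : Fin 3) (i j : Fin (4 * J)), ht J k i < ht J k j →
      4 * (3 : ℕ) * crd (ht J) s k i ≤ crd (ht J) s k j)
    (hp : IsSimplicialPolytope 3 (pt (ht J) s)) {W : Finset (Fin (4 * J))}
    (hW : IsTransversal (boundary (pt (ht J) s)) W) {x y z : ℕ × ℕ} (hfr : Fr J x y z)
    (hx1 : x.1 < J) (hx2 : x.2 < 4) (hy1 : y.1 < J) (hy2 : y.2 < 4) (hz1 : z.1 < J)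
    (hz2 : z.2 < 4) :
    (⟨4 * x.1 + x.2, by omega⟩ : Fin (4 * J)) ∈ W ∨ (⟨4 * y.1 + y.2, by omega⟩ : Fin (4 * J)) ∈ W ∨
      (⟨4 * z.1 + z.2, by omega⟩ : Fin (4 * J)) ∈ W := by
  obtain ⟨⟨h1, h2⟩, ⟨h3, h4⟩, ⟨h5, h6⟩, h7⟩ := hfr
  have hht : ∀ (k : Fin 3) (u : ℕ × ℕ) (hu1 : u.1 < J) (hu2 : u.2 < 4),
      ht J k ⟨4 * u.1 + u.2, by omega⟩ = g J k u.1 u.2 := by
    intro k u hu1 hu2
    unfold ht
    congr 1
    · show (4 * u.1 + u.2) / 4 = u.1
      omega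
    · show (4 * u.1 + u.2) % 4 = u.2
      omega
  let a : Fin 3 → Fin (4 * J) := ![⟨4 * x.1 + x.2, by omega⟩, ⟨4 * y.1 + y.2, by omega⟩,
    ⟨4 * z.1 + z.2, by omega⟩]
  have ha : ∀ k l, l ≠ k → ht J k (a l) < ht J k (a k) := by
    intro k l hkl
    fin_cases k <;> fin_cases l <;> first | exact absurd rfl hkl | skip
    · show ht J 0 ⟨4 * y.1 + y.2, by omega⟩ < ht J 0 ⟨4 * x.1 + x.2, by omega⟩
      rw [hht 0 x hx1 hx2, hht 0 y hy1 hy2]; exact h1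
    · show ht J 0 ⟨4 * z.1 + z.2, by omega⟩ < ht J 0 ⟨4 * x.1 + x.2, by omega⟩
      rw [hht 0 x hx1 hx2, hht 0 z hz1 hz2]; exact h2
    · show ht J 1 ⟨4 * x.1 + x.2, by omega⟩ < ht J 1 ⟨4 * y.1 + y.2, by omega⟩
      rw [hht 1 x hx1 hx2, hht 1 y hy1 hy2]; exact h3
    · show ht J 1 ⟨4 * z.1 + z.2, by omega⟩ < ht J 1 ⟨4 * y.1 + y.2, by omega⟩
      rw [hht 1 z hz1 hz2, hht 1 y hy1 hy2]; exact h4
    · show ht J 2 ⟨4 * x.1 + x.2, by omega⟩ < ht J 2 ⟨4 * z.1 + z.2, by omega⟩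
      rw [hht 2 x hx1 hx2, hht 2 z hz1 hz2]; exact h5
    · show ht J 2 ⟨4 * y.1 + y.2, by omega⟩ < ht J 2 ⟨4 * z.1 + z.2, by omega⟩
      rw [hht 2 y hy1 hy2, hht 2 z hz1 hz2]; exact h6
  have hv : ∀ v, (∀ k, v ≠ a k) → ∃ k, ht J k (a k) < ht J k v := by
    intro v hvk
    have hvlt := v.2
    have hne : ∀ (u : ℕ × ℕ) (hu1 : u.1 < J) (hu2 : u.2 < 4),
        v ≠ ⟨4 * u.1 + u.2, by omega⟩ → (((v : ℕ) / 4, (v : ℕ) % 4) : ℕ × ℕ) ≠ u := by
      intro u hu1 hu2 hvu h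
      apply hvu
      apply Fin.ext
      show (v : ℕ) = 4 * u.1 + u.2
      have e1 : (v : ℕ) / 4 = u.1 := congrArg Prod.fst h
      have e2 : (v : ℕ) % 4 = u.2 := congrArg Prod.snd h
      omega
    rcases h7 ((v : ℕ) / 4) ((v : ℕ) % 4) (by omega) (Nat.mod_lt _ (by norm_num))
      (hne x hx1 hx2 (hvk 0)) (hne y hy1 hy2 (hvk 1)) (hne z hz1 hz2 (hvk 2)) with h | h | h
    · refine ⟨0, ?_⟩
      show ht J 0 ⟨4 * x.1 + x.2, by omega⟩ < ht J 0 v
      rw [hht 0 x hx1 hx2]; exact h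
    · refine ⟨1, ?_⟩
      show ht J 1 ⟨4 * y.1 + y.2, by omega⟩ < ht J 1 v
      rw [hht 1 y hy1 hy2]; exact h
    · refine ⟨2, ?_⟩
      show ht J 2 ⟨4 * z.1 + z.2, by omega⟩ < ht J 2 v
      rw [hht 2 z hz1 hz2]; exact h
  obtain ⟨v, hv1, hv2⟩ := hW _ (isFacet_of_frame (by norm_num) (ht J) hs hF hp a ha hv)
  simp only [Finset.mem_image, Finset.mem_univ, true_and] at hv1
  obtain ⟨k, rfl⟩ := hv1
  fin_cases k
  · exact Or.inl hv2
  · exact Or.inr (Or.inl hv2)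
  · exact Or.inr (Or.inr hv2)

/-- the finite check in one level -/
lemma level_check {a b c w1 w2 w3 w4 : ℕ} (ha : a ≤ 1) (hb : b ≤ 1) (hc : c ≤ 1) (h1 : w1 ≤ 1)
    (h2 : w2 ≤ 1) (h3 : w3 ≤ 1) (h4 : w4 ≤ 1) (e1 : 1 ≤ a + b + w3) (e2 : 1 ≤ w1 + b + c)
    (e3 : 1 ≤ a + w2 + c) (e4 : 1 ≤ a + w3 + w2) (e5 : 1 ≤ w3 + b + w1) (e6 : 1 ≤ w2 + w1 + c)
    (e7 : 1 ≤ w4 + w3 + w1) (e8 : 1 ≤ w2 + w3 + w4) :
    2 + (w2 + w4 + w1 + 1) / 2 ≤ w1 + w2 + w3 + w4 + (a + b + c + 1) / 2 := by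
  interval_cases a <;> interval_cases b <;> interval_cases c <;> omega

/-- the counting over all levels -/
lemma count_levels (w : ℕ → ℕ) (hw : ∀ v, w v ≤ 1) (J : ℕ)
    (h : ∀ j, j + 1 < J →
      1 ≤ w (4 * j + 1) + w (4 * j + 3) + w (4 * (j + 1) + 2) ∧
      1 ≤ w (4 * (j + 1) + 0) + w (4 * j + 3) + w (4 * j + 0) ∧
      1 ≤ w (4 * j + 1) + w (4 * (j + 1) + 1) + w (4 * j + 0) ∧
      1 ≤ w (4 * j + 1) + w (4 * (j + 1) + 2) + w (4 * (j + 1) + 1) ∧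
      1 ≤ w (4 * (j + 1) + 2) + w (4 * j + 3) + w (4 * (j + 1) + 0) ∧
      1 ≤ w (4 * (j + 1) + 1) + w (4 * (j + 1) + 0) + w (4 * j + 0) ∧
      1 ≤ w (4 * (j + 1) + 3) + w (4 * (j + 1) + 2) + w (4 * (j + 1) + 0) ∧
      1 ≤ w (4 * (j + 1) + 1) + w (4 * (j + 1) + 2) + w (4 * (j + 1) + 3)) :
    ∀ j, j < J → 2 * j + (w (4 * j + 1) + w (4 * j + 3) + w (4 * j + 0) + 1) / 2 ≤
      ∑ v ∈ Finset.range (4 * (j + 1)), w v := by
  intro j
  induction j with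
  | zero =>
    intro _
    simp only [Finset.sum_range_succ, Finset.range_zero, Finset.sum_empty, zero_add, mul_one,
      mul_zero]
    omega
  | succ j ih =>
    intro hj
    have h1 := ih (by omega)
    obtain ⟨e1, e2, e3, e4, e5, e6, e7, e8⟩ := h j hj
    have h2 := level_check (hw _) (hw _) (hw _) (hw _) (hw _) (hw _) (hw _) e1 e2 e3 e4 e5 e6 e7 e8
    have h3 : ∑ v ∈ Finset.range (4 * (j + 1 + 1)), w v =
        ∑ v ∈ Finset.range (4 * (j + 1)), w v + (w (4 * (j + 1) + 0) + w (4 * (j + 1) + 1) +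
          w (4 * (j + 1) + 2) + w (4 * (j + 1) + 3)) := by
      rw [show 4 * (j + 1 + 1) = 4 * (j + 1) + 4 by ring, Finset.sum_range_add]
      simp only [Finset.sum_range_succ, Finset.range_zero, Finset.sum_empty, zero_add]
    rw [h3]
    omega

/-- **Three-dimensional simplicial polytopes with transversal ratio close to one half.** -/
theorem exists_polytope_three (J : ℕ) (hJ : 0 < J) :
    ∃ p : Fin (4 * J) → E 3, IsSimplicialPolytope 3 p ∧
      1 / 2 - 1 / (2 * (J : ℝ)) ≤ transversalRatio (boundary p) := by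
  classical
  obtain ⟨s, hs, hF, hgp⟩ := exists_paramD (by norm_num : 0 < 3) (ht J)
  have hp := isSimplicialPolytope_pt (by norm_num : 0 < 3) (by omega) (ht J) (ht_anti J) hs hF hgp
  refine ⟨pt (ht J) s, hp, ?_⟩
  have hΔ := isComplex_boundary (by norm_num : 0 < 3) hp
  have hne : {k | ∃ W, IsTransversal (boundary (pt (ht J) s)) W ∧ W.card = k}.Nonempty := by
    refine ⟨_, Finset.univ, ?_, rfl⟩
    intro t ht'
    have hne : t.Nonempty := by
      by_contra hcon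
      rw [Finset.not_nonempty_iff_eq_empty] at hcon
      have := ht'.2 {⟨0, by omega⟩} (hΔ.vert _) (by rw [hcon]; exact Finset.empty_subset _)
      rw [hcon] at this
      exact Finset.singleton_ne_empty _ this
    obtain ⟨v, hv⟩ := hne
    exact ⟨v, hv, Finset.mem_univ v⟩
  obtain ⟨W, hW, hWcard⟩ := Nat.sInf_mem hne
  let w : ℕ → ℕ := fun v => if h : v < 4 * J then (if (⟨v, h⟩ : Fin (4 * J)) ∈ W then 1 else 0) else 0
  have hw : ∀ v, w v ≤ 1 := by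
    intro v
    simp only [w]
    split_ifs <;> norm_num
  have hw1 : ∀ (v : ℕ) (h : v < 4 * J), (⟨v, h⟩ : Fin (4 * J)) ∈ W → w v = 1 := by
    intro v h hv
    simp only [w, dif_pos h, if_pos hv]
  have hsum : ∑ v ∈ Finset.range (4 * J), w v = W.card := by
    rw [Finset.sum_range]
    have : ∀ i : Fin (4 * J), w i = if i ∈ W then 1 else 0 := by
      intro i
      simp only [w, dif_pos i.2, Fin.eta]
    simp only [this]
    simp
  have hfr : ∀ x y z : ℕ × ℕ, Fr J x y z → x.1 < J → x.2 < 4 → y.1 < J → y.2 < 4 →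
      z.1 < J → z.2 < 4 → 1 ≤ w (4 * x.1 + x.2) + w (4 * y.1 + y.2) + w (4 * z.1 + z.2) := by
    intro x y z hxyz hx1 hx2 hy1 hy2 hz1 hz2
    rcases hit hs hF hp hW hxyz hx1 hx2 hy1 hy2 hz1 hz2 with h | h | h
    · have := hw1 _ _ h; omega
    · have := hw1 _ _ h; omega
    · have := hw1 _ _ h; omega
  have hcount := count_levels w hw J (by
    intro j hj
    obtain ⟨f1, f2, f3, f4, f5, f6, f7, f8⟩ := frames hj
    refine ⟨?_, ?_, ?_, ?_, ?_, ?_, ?_, ?_⟩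
    · exact hfr _ _ _ f1 (by simp; omega) (by simp) (by simp; omega) (by simp) (by simp; omega) (by simp)
    · exact hfr _ _ _ f2 (by simp; omega) (by simp) (by simp; omega) (by simp) (by simp; omega) (by simp)
    · exact hfr _ _ _ f3 (by simp; omega) (by simp) (by simp; omega) (by simp) (by simp; omega) (by simp)
    · exact hfr _ _ _ f4 (by simp; omega) (by simp) (by simp; omega) (by simp) (by simp; omega) (by simp)
    · exact hfr _ _ _ f5 (by simp; omega) (by simp) (by simp; omega) (by simp) (by simp; omega) (by simp)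
    · exact hfr _ _ _ f6 (by simp; omega) (by simp) (by simp; omega) (by simp) (by simp; omega) (by simp)
    · exact hfr _ _ _ f7 (by simp; omega) (by simp) (by simp; omega) (by simp) (by simp; omega) (by simp)
    · exact hfr _ _ _ f8 (by simp; omega) (by simp) (by simp; omega) (by simp) (by simp; omega) (by simp))
    (J - 1) (by omega)
  rw [show 4 * (J - 1 + 1) = 4 * J by omega, hsum] at hcount
  have hWc : 2 * J ≤ W.card + 2 := by omega
  unfold transversalRatio transversalNumber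
  rw [← hWcard]
  have hJR : (0 : ℝ) < J := by exact_mod_cast hJ
  have hWR : 2 * (J : ℝ) ≤ W.card + 2 := by exact_mod_cast hWc
  push_cast
  rw [le_div_iff₀ (by positivity)]
  have : (1 / 2 - 1 / (2 * (J : ℝ))) * (4 * J) = 2 * J - 2 := by
    field_simp
    ring
  rw [this]
  linarith

end Pool.Agent.X156.TV
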