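import Mathlib
import Pool.Agent.H523R3.TransMain

/-!
# Simplicial circles have transversals of size at most `(n + 1) / 2`
-/

set_option autoImplicit false

namespace Pool.Agent.X156.TV

open Pool.Agent.H523R3.Trans Set Metric

/-- the vertex `c` as a point of the realization -/
noncomputable def vtx {n : ℕ} {Δ : Set (Finset (Fin n))} (hΔ : IsComplex Δ) (c : Fin n) :
    realization Δ :=
  ⟨Pi.single c 1, by
    refine ⟨?_, ?_, ?_⟩
    · intro i
      by_cases h : i = c
      · subst h; simp
      · simp [h]
    · simp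
    · have : Finset.univ.filter (fun i => (Pi.single c (1 : ℝ) : Fin n → ℝ) i ≠ 0) = {c} := by
        ext i
        by_cases h : i = c
        · subst h; simp
        · simp [h]
      rw [this]
      exact hΔ.vert c⟩

lemma vtx_self {n : ℕ} {Δ : Set (Finset (Fin n))} (hΔ : IsComplex Δ) (c : Fin n) :
    (vtx hΔ c).1 c = 1 := by simp [vtx]

lemma vtx_ne {n : ℕ} {Δ : Set (Finset (Fin n))} (hΔ : IsComplex Δ) {c i : Fin n} (h : i ≠ c) :
    (vtx hΔ c).1 i = 0 := by simp [vtx, h]

lemma vtx_injective {n : ℕ} {Δ : Set (Finset (Fin n))} (hΔ : IsComplex Δ) :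
    Function.Injective (vtx hΔ) := by
  intro a b hab
  by_contra hne
  have h1 := vtx_self hΔ a
  rw [hab, vtx_ne hΔ hne] at h1
  exact zero_ne_one h1

/-- the point at parameter `t` of the edge from `a` to `b` -/
noncomputable def seg {n : ℕ} {Δ : Set (Finset (Fin n))} (hΔ : IsComplex Δ) {a b : Fin n}
    (hab : a ≠ b) (he : ({a, b} : Finset (Fin n)) ∈ Δ) (t : Icc (0 : ℝ) 1) : realization Δ :=
  ⟨fun i => (1 - t.1) * (Pi.single a (1 : ℝ) : Fin n → ℝ) i +
      t.1 * (Pi.single b (1 : ℝ) : Fin n → ℝ) i, by
    have h0 := t.2.1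
    have h1 := t.2.2
    refine ⟨?_, ?_, ?_⟩
    · intro i
      have e1 : 0 ≤ (Pi.single a (1 : ℝ) : Fin n → ℝ) i := by
        by_cases h : i = a
        · subst h; simp
        · simp [h]
      have e2 : 0 ≤ (Pi.single b (1 : ℝ) : Fin n → ℝ) i := by
        by_cases h : i = b
        · subst h; simp
        · simp [h]
      have e3 : 0 ≤ 1 - t.1 := by linarith
      positivity
    · rw [Finset.sum_add_distrib, ← Finset.mul_sum, ← Finset.mul_sum]
      simp
    · refine hΔ.down _ he _ ?_
      intro i hi
      rw [Finset.mem_filter] at hi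
      by_contra hcon
      simp only [Finset.mem_insert, Finset.mem_singleton, not_or] at hcon
      apply hi.2
      simp [hcon.1, hcon.2]⟩

lemma seg_other {n : ℕ} {Δ : Set (Finset (Fin n))} (hΔ : IsComplex Δ) {a b : Fin n}
    (hab : a ≠ b) (he : ({a, b} : Finset (Fin n)) ∈ Δ) (t : Icc (0 : ℝ) 1) {c : Fin n}
    (hca : c ≠ a) (hcb : c ≠ b) : (seg hΔ hab he t).1 c = 0 := by
  simp [seg, hca, hcb]

lemma seg_zero {n : ℕ} {Δ : Set (Finset (Fin n))} (hΔ : IsComplex Δ) {a b : Fin n}
    (hab : a ≠ b) (he : ({a, b} : Finset (Fin n)) ∈ Δ) :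
    seg hΔ hab he ⟨0, by simp⟩ = vtx hΔ a := by
  apply Subtype.ext
  funext i
  simp [seg, vtx]

lemma seg_one {n : ℕ} {Δ : Set (Finset (Fin n))} (hΔ : IsComplex Δ) {a b : Fin n}
    (hab : a ≠ b) (he : ({a, b} : Finset (Fin n)) ∈ Δ) :
    seg hΔ hab he ⟨1, by simp⟩ = vtx hΔ b := by
  apply Subtype.ext
  funext i
  simp [seg, vtx]

lemma continuous_seg {n : ℕ} {Δ : Set (Finset (Fin n))} (hΔ : IsComplex Δ) {a b : Fin n}
    (hab : a ≠ b) (he : ({a, b} : Finset (Fin n)) ∈ Δ) : Continuous (seg hΔ hab he) := by
  apply Continuous.subtype_mk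
  apply continuous_pi
  intro i
  fun_prop

/-- No vertex lies between the ends of an edge, in a chart of the punctured complex. -/
lemma no_between {n : ℕ} {Δ : Set (Finset (Fin n))} (hΔ : IsComplex Δ) (v : Fin n)
    (ψ : realization Δ → ℝ) (hc : ContinuousOn ψ {vtx hΔ v}ᶜ) (hi : InjOn ψ {vtx hΔ v}ᶜ)
    {a b c : Fin n} (hab : a ≠ b) (he : ({a, b} : Finset (Fin n)) ∈ Δ) (hav : a ≠ v) (hbv : b ≠ v)
    (hcv : c ≠ v) (hca : c ≠ a) (hcb : c ≠ b) (h1 : ψ (vtx hΔ a) ≤ ψ (vtx hΔ c))
    (h2 : ψ (vtx hΔ c) ≤ ψ (vtx hΔ b)) : False := by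
  have hmem : ∀ t, seg hΔ hab he t ∈ ({vtx hΔ v}ᶜ : Set (realization Δ)) := by
    intro t ht
    rw [mem_singleton_iff] at ht
    have e1 := seg_other hΔ hab he t (Ne.symm hav) (Ne.symm hbv)
    rw [ht, vtx_self] at e1
    exact one_ne_zero e1
  have hcont : Continuous (ψ ∘ seg hΔ hab he) :=
    hc.comp_continuous (continuous_seg hΔ hab he) hmem
  have hr := mem_range_of_exists_le_of_exists_ge hcont
    (c := ψ (vtx hΔ c)) ⟨⟨0, by simp⟩, by
      show ψ (seg hΔ hab he ⟨0, by simp⟩) ≤ _
      rw [seg_zero]; exact h1⟩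
    ⟨⟨1, by simp⟩, by
      show _ ≤ ψ (seg hΔ hab he ⟨1, by simp⟩)
      rw [seg_one]; exact h2⟩
  obtain ⟨t, ht⟩ := hr
  have h3 : seg hΔ hab he t = vtx hΔ c := by
    apply hi (hmem t) _ ht
    intro hcon
    rw [mem_singleton_iff] at hcon
    exact hcv (vtx_injective hΔ hcon)
  have h4 := seg_other hΔ hab he t hca hcb
  rw [h3, vtx_self] at h4
  exact one_ne_zero h4

/-- A connected complex with at least two vertices has no isolated vertex. -/
lemma not_isolated {n : ℕ} {Δ : Set (Finset (Fin n))} (hΔ : IsComplex Δ)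
    [PreconnectedSpace (realization Δ)] {a v : Fin n} (hav : a ≠ v) (hf : IsFacet Δ {a}) :
    False := by
  have hset : {x : realization Δ | 0 < x.1 a} = {vtx hΔ a} := by
    ext x
    rw [mem_singleton_iff]
    constructor
    · intro hx
      have hx' : 0 < x.1 a := hx
      have h1 := hf.2 _ x.2.2.2 (by
        intro i hi
        rw [Finset.mem_singleton] at hi
        subst hi
        rw [Finset.mem_filter]
        exact ⟨Finset.mem_univ _, hx'.ne'⟩)
      have h2 : ∀ i, i ≠ a → x.1 i = 0 := by
        intro i hi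
        by_contra hcon
        have : i ∈ Finset.univ.filter (fun i => x.1 i ≠ 0) :=
          Finset.mem_filter.mpr ⟨Finset.mem_univ _, hcon⟩
        rw [h1, Finset.mem_singleton] at this
        exact hi this
      have h3 : x.1 a = 1 := by
        have := x.2.2.1
        rw [Finset.sum_eq_single a (fun i _ hi => h2 i hi) (by simp)] at this
        exact this
      apply Subtype.ext
      funext i
      by_cases hi : i = a
      · subst hi; rw [vtx_self, h3]
      · rw [vtx_ne hΔ hi, h2 i hi]
    · rintro rfl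
      show 0 < (vtx hΔ a).1 a
      rw [vtx_self]; exact one_pos
  have hopen : IsOpen {x : realization Δ | 0 < x.1 a} :=
    isOpen_lt continuous_const ((continuous_apply a).comp continuous_subtype_val)
  have hclosed : IsClosed {x : realization Δ | 0 < x.1 a} := by
    rw [hset]; exact isClosed_singleton
  rcases isClopen_iff.mp ⟨hclosed, hopen⟩ with h | h
  · have : vtx hΔ a ∈ {x : realization Δ | 0 < x.1 a} := by
      show 0 < (vtx hΔ a).1 a
      rw [vtx_self]; exact one_pos
    rw [h] at this
    exact this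
  · have : vtx hΔ v ∈ {x : realization Δ | 0 < x.1 a} := by rw [h]; trivial
    have h4 : 0 < (vtx hΔ v).1 a := this
    rw [vtx_ne hΔ hav] at h4
    exact lt_irrefl _ h4

/-- The chart of the punctured circle. -/
lemma exists_chart {n : ℕ} {Δ : Set (Finset (Fin n))} (φ : realization Δ ≃ₜ sphere (0 : E 2) 1)
    (x0 : realization Δ) :
    ∃ ψ : realization Δ → ℝ, ContinuousOn ψ {x0}ᶜ ∧ InjOn ψ {x0}ᶜ := by
  have : Fact (Module.finrank ℝ (E 2) = 1 + 1) := ⟨by simp⟩
  let st := stereographic' 1 (φ x0)
  have hsrc : st.source = {φ x0}ᶜ := stereographic'_source (φ x0)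
  have hmaps : MapsTo φ {x0}ᶜ st.source := by
    intro x hx
    rw [hsrc]
    intro hcon
    exact hx (φ.injective hcon)
  refine ⟨fun x => (st (φ x)).ofLp 0, ?_, ?_⟩
  · have h1 : ContinuousOn (fun x => st (φ x)) {x0}ᶜ :=
      st.continuousOn.comp φ.continuous.continuousOn hmaps
    have h2 : Continuous (fun y : EuclideanSpace ℝ (Fin 1) => y.ofLp 0) := by fun_prop
    exact h2.comp_continuousOn h1
  · intro x hx y hy hxy
    have h1 : st (φ x) = st (φ y) := by
      ext i
      fin_cases i
      exact hxy
    exact φ.injective (st.injOn (hmaps hx) (hmaps hy) h1)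

/-- **Transversals of simplicial circles.** -/
theorem exists_transversal {n : ℕ} (hn : 0 < n) {Δ : Set (Finset (Fin n))}
    (h : IsSimplicialSphere 2 Δ) : ∃ W, IsTransversal Δ W ∧ 2 * W.card ≤ n + 1 := by
  classical
  obtain ⟨hΔ, ⟨φ⟩⟩ := h
  let v : Fin n := ⟨0, hn⟩
  obtain ⟨ψ, hc, hi⟩ := exists_chart φ (vtx hΔ v)
  have : PreconnectedSpace (sphere (0 : E 2) 1) := by
    rw [← isPreconnected_iff_preconnectedSpace]
    apply isPreconnected_sphere
    rw [← Module.finrank_eq_rank]
    simp
  have : PreconnectedSpace (realization Δ) := φ.symm.surjective.denseRange.preconnectedSpace φ.symm.continuous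
  have hinj : ∀ a b : Fin n, a ≠ v → b ≠ v → ψ (vtx hΔ a) = ψ (vtx hΔ b) → a = b := by
    intro a b ha hb hab
    apply vtx_injective hΔ
    refine hi ?_ ?_ hab
    · intro hcon; exact ha (vtx_injective hΔ hcon)
    · intro hcon; exact hb (vtx_injective hΔ hcon)
  let below : Fin n → Finset (Fin n) := fun a =>
    Finset.univ.filter (fun c => c ≠ v ∧ ψ (vtx hΔ c) < ψ (vtx hΔ a))
  have hbelow_lt : ∀ a b : Fin n, a ≠ v → ψ (vtx hΔ a) < ψ (vtx hΔ b) →
      (below a).card < (below b).card := by
    intro a b ha hab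
    apply Finset.card_lt_card
    rw [Finset.ssubset_iff_of_subset]
    · refine ⟨a, ?_, ?_⟩
      · simp only [below, Finset.mem_filter, Finset.mem_univ, true_and]
        exact ⟨ha, hab⟩
      · simp only [below, Finset.mem_filter, Finset.mem_univ, true_and, not_and, lt_irrefl,
          not_false_eq_true, implies_true]
    · intro c hcc
      simp only [below, Finset.mem_filter, Finset.mem_univ, true_and] at hcc ⊢
      exact ⟨hcc.1, hcc.2.trans hab⟩
  have hbelow_card : ∀ a : Fin n, a ≠ v → (below a).card + 2 ≤ n := by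
    intro a ha
    have h1 : below a ⊆ ({v, a} : Finset (Fin n))ᶜ := by
      intro c hcc
      simp only [below, Finset.mem_filter, Finset.mem_univ, true_and] at hcc
      simp only [Finset.mem_compl, Finset.mem_insert, Finset.mem_singleton, not_or]
      refine ⟨hcc.1, ?_⟩
      rintro rfl
      exact lt_irrefl _ hcc.2
    have h2 := Finset.card_le_card h1
    rw [Finset.card_compl, Fintype.card_fin, Finset.card_pair (Ne.symm ha)] at h2
    have h3 : ({v, a} : Finset (Fin n)).card ≤ Fintype.card (Fin n) := Finset.card_le_univ _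
    rw [Fintype.card_fin, Finset.card_pair (Ne.symm ha)] at h3
    omega
  let O : Finset (Fin n) := Finset.univ.filter (fun a => a ≠ v ∧ (below a).card % 2 = 1)
  have hO : O.card ≤ (n - 1) / 2 := by
    have h1 : O.card ≤ (Finset.range ((n - 1) / 2)).card := by
      apply Finset.card_le_card_of_injOn (fun a => (below a).card / 2)
      · intro a ha
        have ha' := (Finset.mem_filter.mp ha).2
        have := hbelow_card a ha'.1
        simp only [Finset.coe_range, Set.mem_Iio]
        omega
      · intro a ha b hb hab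
        have ha' := (Finset.mem_filter.mp ha).2
        have hb' := (Finset.mem_filter.mp hb).2
        have hab' : (below a).card / 2 = (below b).card / 2 := hab
        have heq : (below a).card = (below b).card := by omega
        rcases lt_trichotomy (ψ (vtx hΔ a)) (ψ (vtx hΔ b)) with hlt | he | hlt
        · have := hbelow_lt a b ha'.1 hlt; omega
        · exact hinj a b ha'.1 hb'.1 he
        · have := hbelow_lt b a hb'.1 hlt; omega
    rwa [Finset.card_range] at h1
  have hedge : ∀ a b : Fin n, a ≠ v → b ≠ v → a ≠ b → ({a, b} : Finset (Fin n)) ∈ Δ →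
      ψ (vtx hΔ a) < ψ (vtx hΔ b) → (below b).card = (below a).card + 1 := by
    intro a b ha hb hab he hlt
    have h1 : below b = insert a (below a) := by
      ext c
      simp only [below, Finset.mem_filter, Finset.mem_univ, true_and, Finset.mem_insert]
      constructor
      · rintro ⟨hcv, hcb⟩
        by_cases hca : c = a
        · exact Or.inl hca
        · right
          refine ⟨hcv, ?_⟩
          by_contra hcon
          push Not at hcon
          have hcb' : c ≠ b := by rintro rfl; exact lt_irrefl _ hcb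
          exact no_between hΔ v ψ hc hi hab he ha hb hcv hca hcb' hcon hcb.le
      · rintro (rfl | ⟨hcv, hca⟩)
        · exact ⟨ha, hlt⟩
        · exact ⟨hcv, hca.trans hlt⟩
    rw [h1, Finset.card_insert_of_notMem]
    simp only [below, Finset.mem_filter, Finset.mem_univ, true_and, not_and, lt_irrefl,
      not_false_eq_true, implies_true]
  refine ⟨insert v O, ?_, ?_⟩
  · intro s hs
    by_cases hvs : v ∈ s
    · exact ⟨v, hvs, Finset.mem_insert_self _ _⟩
    have hne : s.Nonempty := by
      by_contra hcon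
      rw [Finset.not_nonempty_iff_eq_empty] at hcon
      have := hs.2 {v} (hΔ.vert _) (by rw [hcon]; exact Finset.empty_subset _)
      rw [hcon] at this
      exact Finset.singleton_ne_empty _ this
    obtain ⟨a, ha⟩ := hne
    have hav : a ≠ v := by rintro rfl; exact hvs ha
    by_cases hsa : s = {a}
    · exfalso
      rw [hsa] at hs
      exact not_isolated hΔ hav hs
    · have hex : ∃ b ∈ s, b ≠ a := by
        by_contra hcon
        push Not at hcon
        apply hsa
        ext x
        rw [Finset.mem_singleton]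
        exact ⟨fun hx => hcon x hx, fun hx => by rw [hx]; exact ha⟩
      obtain ⟨b, hb, hba⟩ := hex
      have hbv : b ≠ v := by rintro rfl; exact hvs hb
      have hpair : ({a, b} : Finset (Fin n)) ∈ Δ := by
        refine hΔ.down _ hs.1 _ ?_
        intro x hx
        simp only [Finset.mem_insert, Finset.mem_singleton] at hx
        rcases hx with rfl | rfl
        · exact ha
        · exact hb
      have hodd : (below a).card % 2 = 1 ∨ (below b).card % 2 = 1 := by
        rcases lt_trichotomy (ψ (vtx hΔ a)) (ψ (vtx hΔ b)) with hlt | he | hlt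
        · have := hedge a b hav hbv (Ne.symm hba) hpair hlt; omega
        · exact absurd (hinj a b hav hbv he) (Ne.symm hba)
        · have := hedge b a hbv hav hba (by rw [Finset.pair_comm]; exact hpair) hlt; omega
      rcases hodd with h1 | h1
      · exact ⟨a, ha, Finset.mem_insert_of_mem (Finset.mem_filter.mpr ⟨Finset.mem_univ _, hav, h1⟩)⟩
      · exact ⟨b, hb, Finset.mem_insert_of_mem (Finset.mem_filter.mpr ⟨Finset.mem_univ _, hbv, h1⟩)⟩
  · have := Finset.card_insert_le v O
    omega

end Pool.Agent.X156.TV
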